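import Pool.Agent.Helper79.M.Grp
import Pool.Agent.Helper21.HG.Split
import Pool.Agent.Helper13.HG.Base
import Pool.Agent.Helper53.SCD.Tuples

/-!
# Frobenius elements and homomorphisms to the algebraic closure of the prime field (project M,
block W3)
-/

set_option autoImplicit false

open NumberField Filter Topology IsDedekindDomain Polynomial
open scoped Pointwise

namespace Pool.Agent.Helper79.M

open Pool.Agent.HG Pool.Agent.H53SCD Pool.Agent.Helper21.HG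

noncomputable section

section hom

variable (k : Type) {L : Type} [Field k] [NumberField k] [Field L] [NumberField L] [Algebra k L]

theorem exists_idx (θ : 𝓞 L) (hθ : IntermediateField.adjoin k {(θ : L)} = ⊤) :
    ∃ M : ℕ, M ≠ 0 ∧ ∀ x : 𝓞 L, ∃ P : (𝓞 k)[X], (M : 𝓞 L) * x = aeval θ P := by
  obtain ⟨M, hM0, hM⟩ := exists_index (k := k) θ
  refine ⟨M, hM0, fun x => ?_⟩
  have hx : (x : L) ∈ Ky k θ := by
    have : Ky k θ = ⊤ := hθ
    rw [this]
    trivial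
  have hxi : IsIntegral ℤ (⟨(x : L), hx⟩ : Ky k θ) := by
    have h : IsIntegral ℤ (x : L) := RingOfIntegers.isIntegral_coe x
    exact (isIntegral_algHom_iff ((Ky k θ).val.restrictScalars ℤ) Subtype.val_injective).1 h
  set x' : 𝓞 (Ky k θ) := ⟨⟨(x : L), hx⟩, hxi⟩ with hx'
  have h1 : algebraMap (𝓞 (Ky k θ)) (𝓞 L) x' = x := by
    apply RingOfIntegers.ext
    rfl
  obtain ⟨P, hP⟩ := hM x'
  refine ⟨P, ?_⟩
  have h2 := congrArg (algebraMap (𝓞 (Ky k θ)) (𝓞 L)) hP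
  rw [map_mul, map_natCast, h1] at h2
  rw [h2, aeval_def, aeval_def, Polynomial.hom_eval₂, algebraMap_yK]
  rfl

theorem exists_root [IsGalois k L] {R : Type*} [CommRing R] [IsDomain R] (Φ E : 𝓞 L →+* R)
    (h : ∀ a, Φ (algebraMap (𝓞 k) (𝓞 L) a) = E (algebraMap (𝓞 k) (𝓞 L) a)) (y : 𝓞 L) :
    ∃ g : L ≃ₐ[k] L, Φ y = E (g • y) := by
  classical
  have := Fintype.ofFinite (L ≃ₐ[k] L)
  obtain ⟨Q, hQ⟩ := (Polynomial.mem_lifts _).1
    (Algebra.IsInvariant.charpoly_mem_lifts (𝓞 k) (𝓞 L) (L ≃ₐ[k] L) y)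
  rw [MulSemiringAction.charpoly_eq] at hQ
  have h1 : eval₂ (algebraMap (𝓞 k) (𝓞 L)) y Q = 0 := by
    rw [← eval_map, hQ, eval_prod]
    refine Finset.prod_eq_zero (Finset.mem_univ 1) ?_
    simp
  have h5 : Φ.comp (algebraMap (𝓞 k) (𝓞 L)) = E.comp (algebraMap (𝓞 k) (𝓞 L)) := by
    ext a
    exact h a
  have h2 := congrArg Φ h1
  rw [map_zero, Polynomial.hom_eval₂, h5, ← eval₂_map, hQ, ← eval_map, Polynomial.map_prod, eval_prod,
    Finset.prod_eq_zero_iff] at h2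
  obtain ⟨g, -, hg⟩ := h2
  refine ⟨g, ?_⟩
  rw [Polynomial.map_sub, map_X, map_C, eval_sub, eval_X, eval_C, sub_eq_zero] at hg
  exact hg

/-- Homomorphisms which agree on `𝓞 k` are conjugate. -/
theorem exists_conj (L : Type) [Field L] [NumberField L] [Algebra k L] [IsGalois k L] :
    ∃ M : ℕ, M ≠ 0 ∧ ∀ (R : Type) [CommRing R] [IsDomain R] (Φ E : 𝓞 L →+* R), (M : R) ≠ 0 →
      (∀ a, Φ (algebraMap (𝓞 k) (𝓞 L) a) = E (algebraMap (𝓞 k) (𝓞 L) a)) →
      ∃ g : L ≃ₐ[k] L, ∀ z, Φ z = E (g • z) := by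
  obtain ⟨θ, hθ⟩ := exists_prim (k := k) (L := L)
  have htop : IntermediateField.adjoin k {(θ : L)} = ⊤ := by
    rw [← IsGalois.fixedField_fixingSubgroup (IntermediateField.adjoin k {(θ : L)}),
      ← IntermediateField.fixedField_bot (F := k) (E := L)]
    congr 1
    rw [eq_bot_iff]
    intro g hg
    rw [Subgroup.mem_bot]
    apply hθ
    apply RingOfIntegers.ext
    exact hg ⟨(θ : L), IntermediateField.mem_adjoin_simple_self k _⟩
  obtain ⟨M, hM0, hM⟩ := exists_idx k θ htop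
  refine ⟨M, hM0, fun R _ _ Φ E hMR h => ?_⟩
  obtain ⟨g, hg⟩ := exists_root k Φ E h θ
  refine ⟨g, fun z => ?_⟩
  obtain ⟨P, hP⟩ := hM z
  have h1 := congrArg Φ hP
  have h2 : E (g • ((M : 𝓞 L) * z)) = E (g • aeval θ P) := congrArg (fun z => E (g • z)) hP
  have h5 : Φ.comp (algebraMap (𝓞 k) (𝓞 L)) = E.comp (algebraMap (𝓞 k) (𝓞 L)) := by
    ext a
    exact h a
  have h6 : (E.comp (MulSemiringAction.toRingHom (L ≃ₐ[k] L) (𝓞 L) g)).comp
      (algebraMap (𝓞 k) (𝓞 L)) = E.comp (algebraMap (𝓞 k) (𝓞 L)) := by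
    ext a
    change E (g • algebraMap (𝓞 k) (𝓞 L) a) = _
    rw [smul_const]
    rfl
  rw [map_mul, map_natCast, aeval_def, Polynomial.hom_eval₂, h5, hg] at h1
  have h7 : E (g • ((M : 𝓞 L) * z)) =
      (E.comp (MulSemiringAction.toRingHom (L ≃ₐ[k] L) (𝓞 L) g)) ((M : 𝓞 L) * z) := rfl
  have h8 : E (g • aeval θ P) =
      (E.comp (MulSemiringAction.toRingHom (L ≃ₐ[k] L) (𝓞 L) g)) (aeval θ P) := rfl
  rw [h7, h8, map_mul, map_natCast, aeval_def, Polynomial.hom_eval₂, h6] at h2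
  have h9 : (M : R) * Φ z = (M : R) * E (g • z) := h1.trans h2.symm
  exact mul_left_cancel₀ hMR h9

theorem exists_unr (L : Type) [Field L] [NumberField L] [Algebra k L] [IsGalois k L] :
    ∃ N : ℕ, N ≠ 0 ∧ ∀ (p : ℕ) [Fact p.Prime], ¬ p ∣ N →
      ∀ (Φ : 𝓞 L →+* Fb p) (g : L ≃ₐ[k] L), (∀ z, Φ (g • z) = Φ z) → g = 1 := by
  classical
  have := Fintype.ofFinite (L ≃ₐ[k] L)
  obtain ⟨θ, hθ⟩ := exists_prim (k := k) (L := L)
  have hb : ∀ g : L ≃ₐ[k] L, ∃ m : ℕ, m ≠ 0 ∧ (g ≠ 1 → ∀ p [Fact p.Prime], ¬ p ∣ m →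
      ∀ Ψ : 𝓞 L →+* Fb p, Ψ (g • θ - θ) ≠ 0) := by
    intro g
    by_cases h : g = 1
    · exact ⟨1, one_ne_zero, fun h' => absurd h h'⟩
    · obtain ⟨m, hm, hm'⟩ := exists_bad (g • θ - θ) (sub_ne_zero.2 fun h' => h (hθ g h'))
      exact ⟨m, hm, fun _ => hm'⟩
  choose b hb0 hb using hb
  refine ⟨∏ g, b g, Finset.prod_ne_zero_iff.2 fun g _ => hb0 g, ?_⟩
  intro p hp hpN Φ g hg
  by_contra h
  refine hb g h p (fun h' => hpN (h'.trans (Finset.dvd_prod_of_mem _ (Finset.mem_univ g)))) Φ ?_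
  rw [map_sub, hg, sub_self]

theorem natCast_ne (p : ℕ) [hp : Fact p.Prime] {M : ℕ} (h : ¬ p ∣ M) : (M : Fb p) ≠ 0 := by
  have h3 : CharP (Fb p) p := charP_of_injective_algebraMap (io_inj p) p
  rw [Ne, CharP.cast_eq_zero_iff (Fb p) p]
  exact h

/-- The constants of the extension `L / k`. -/
structure Cst (L : Type) [Field L] [NumberField L] [Algebra k L] (N : ℕ) : Prop where
  conj : ∀ (p : ℕ) [Fact p.Prime], ¬ p ∣ N → ∀ (Φ E : 𝓞 L →+* Fb p),
    (∀ a, Φ (algebraMap (𝓞 k) (𝓞 L) a) = E (algebraMap (𝓞 k) (𝓞 L) a)) →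
    ∃ g : L ≃ₐ[k] L, ∀ z, Φ z = E (g • z)
  unr : ∀ (p : ℕ) [Fact p.Prime], ¬ p ∣ N →
    ∀ (Φ : 𝓞 L →+* Fb p) (g : L ≃ₐ[k] L), (∀ z, Φ (g • z) = Φ z) → g = 1

variable {k}

omit [NumberField k] in
theorem Cst.mul {N : ℕ} (h : Cst k L N) (N' : ℕ) : Cst k L (N * N') :=
  ⟨fun p _ hp => h.conj p fun h' => hp (h'.mul_right _),
    fun p _ hp => h.unr p fun h' => hp (h'.mul_right _)⟩

theorem Cst.dvd {N N' : ℕ} (h : Cst k L N) (hd : N ∣ N') : Cst k L N' := by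
  obtain ⟨M, rfl⟩ := hd
  exact h.mul M

variable (k L)

theorem exists_cst [IsGalois k L] : ∃ N : ℕ, N ≠ 0 ∧ Cst k L N := by
  obtain ⟨M, hM0, hM⟩ := exists_conj k L
  obtain ⟨N, hN0, hN⟩ := exists_unr k L
  refine ⟨M * N, mul_ne_zero hM0 hN0, ⟨fun p _ hp Φ E h => ?_, fun p _ hp => hN p fun h' =>
    hp (h'.mul_left _)⟩⟩
  exact hM (Fb p) Φ E (natCast_ne p fun h' => hp (h'.mul_right _)) h

end hom

section frob

variable {k L : Type} [Field k] [NumberField k] [Field L] [NumberField L] [Algebra k L]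
  (p : ℕ) [hp : Fact p.Prime]

theorem io_pow (a : ZMod p) : io p a ^ p = io p a := by rw [← map_pow, ZMod.pow_card]

/-- the Frobenius map -/
def frb (p : ℕ) [Fact p.Prime] : Fb p →+* Fb p :=
  haveI : CharP (Fb p) p := charP_of_injective_algebraMap (io_inj p) p
  frobenius (Fb p) p

theorem frb_apply (t : Fb p) : frb p t = t ^ p := rfl

/-- The Frobenius element of an extension of `ψ`. -/
theorem exists_fr {N : ℕ} (hN : Cst k L N) (hpN : ¬ p ∣ N) (ψ : 𝓞 k →+* ZMod p) :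
    ∃ σ : L ≃ₐ[k] L, ∀ z, extH L p ψ z ^ p = extH L p ψ (σ • z) := by
  obtain ⟨σ, hσ⟩ := hN.conj p hpN ((frb p).comp (extH L p ψ)) (extH L p ψ) (by
    intro a
    rw [RingHom.comp_apply, frb_apply, extH_spec, io_pow])
  exact ⟨σ, hσ⟩

variable (D : Subgroup (L ≃ₐ[k] L))

/-- The fixed field. -/
abbrev FF (D : Subgroup (L ≃ₐ[k] L)) : IntermediateField k L := IntermediateField.fixedField D

omit [NumberField k] [NumberField L] in
theorem smul_FF {d : L ≃ₐ[k] L} (hd : d ∈ D) (x : 𝓞 (FF D)) :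
    d • algebraMap (𝓞 (FF D)) (𝓞 L) x = algebraMap (𝓞 (FF D)) (𝓞 L) x := by
  apply RingOfIntegers.ext
  exact (x : FF D).2 ⟨d, hd⟩

theorem count_over [IsGalois k L] {N : ℕ} (hN : Cst k L N) (hND : Cst (FF D) L N) (hpN : ¬ p ∣ N)
    (ψ : 𝓞 k →+* ZMod p) (σ : L ≃ₐ[k] L) (hσ : ∀ z, extH L p ψ z ^ p = extH L p ψ (σ • z)) :
    pi D σ = (Nat.card (H53SCD.Over (FF D) p ψ) : ℝ) * Nat.card D := by
  set E := extH L p ψ with hE
  -- uniqueness
  have hu : ∀ g g' : L ≃ₐ[k] L, (∀ z, E (g • z) = E (g' • z)) → g = g' := by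
    intro g g' h
    have := hN.unr p hpN E (g * g'⁻¹) (fun z => by rw [mul_smul, h, smul_inv_smul])
    rwa [mul_inv_eq_one] at this
  -- agreement on the fixed field
  have hag : ∀ g g' : L ≃ₐ[k] L, (∀ x : 𝓞 (FF D), E (g • algebraMap _ _ x) = E (g' • algebraMap _ _ x)) →
      ∃ d ∈ D, g = g' * d := by
    intro g g' h
    obtain ⟨d, hd⟩ := hND.conj p hpN (E.comp (MulSemiringAction.toRingHom (L ≃ₐ[k] L) (𝓞 L) g))
      (E.comp (MulSemiringAction.toRingHom (L ≃ₐ[k] L) (𝓞 L) g')) h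
    have hdD : d.restrictScalars k ∈ D := by
      have h1 : d.restrictScalars k ∈ (FF D).fixingSubgroup := by
        rw [IntermediateField.mem_fixingSubgroup_iff]
        intro x hx
        exact d.commutes ⟨x, hx⟩
      rwa [IntermediateField.fixingSubgroup_fixedField] at h1
    refine ⟨_, hdD, hu _ _ fun z => ?_⟩
    have h2 : E (g • z) = E (g' • (d • z)) := hd z
    rw [h2, mul_smul]
    rfl
  have hcond : ∀ g : L ≃ₐ[k] L, g⁻¹ * σ * g ∈ D ↔
      ∀ x : 𝓞 (FF D), E (g • algebraMap _ _ x) ^ p = E (g • algebraMap _ _ x) := by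
    intro g
    constructor
    · intro h x
      rw [hσ, ← mul_smul]
      have h1 : σ * g = g * (g⁻¹ * σ * g) := by group
      rw [h1, mul_smul, smul_FF D h]
    · intro h
      obtain ⟨d, hd, hd'⟩ := hag (σ * g) g (fun x => by rw [mul_smul, ← hσ, h])
      have h1 : g⁻¹ * σ * g = d := by
        rw [mul_assoc, hd']
        group
      rw [h1]
      exact hd
  -- the homomorphism of `g`
  have hex : ∀ g : {g : L ≃ₐ[k] L // g⁻¹ * σ * g ∈ D}, ∃ Θ : H53SCD.Over (FF D) p ψ,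
      ∀ x : 𝓞 (FF D), io p (Θ.1 x) = E (g.1 • algebraMap _ _ x) := by
    rintro ⟨g, hg⟩
    have h1 := (hcond g).1 hg
    choose Θ hΘ using fun x => (mem_io_iff p _).2 (h1 x)
    refine ⟨⟨{ toFun := Θ
               map_one' := io_inj p (by rw [hΘ, map_one, map_one, smul_one, map_one])
               map_zero' := io_inj p (by rw [hΘ, map_zero, map_zero, smul_zero, map_zero])
               map_mul' := fun x z => io_inj p (by
                rw [hΘ, map_mul, map_mul, hΘ, hΘ, smul_mul', map_mul])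
               map_add' := fun x z => io_inj p (by
                rw [hΘ, map_add, map_add, hΘ, hΘ, smul_add, map_add]) }, ?_⟩, hΘ⟩
    ext b
    apply io_inj p
    change io p (Θ (algebraMap (𝓞 k) (𝓞 (FF D)) b)) = _
    rw [hΘ]
    have h2 : algebraMap (𝓞 (FF D)) (𝓞 L) (algebraMap (𝓞 k) (𝓞 (FF D)) b) =
      algebraMap (𝓞 k) (𝓞 L) b := rfl
    rw [h2, smul_const, hE, extH_spec]
  choose Θ hΘ using hex
  -- surjectivity
  have hsurj : ∀ T : H53SCD.Over (FF D) p ψ, ∃ g, Θ g = T := by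
    rintro ⟨T, hT⟩
    obtain ⟨Φ, hΦ⟩ := exists_hom_ext (A := 𝓞 (FF D)) (B := 𝓞 L) ((io p).comp T)
    obtain ⟨g, hg⟩ := hN.conj p hpN Φ E (by
      intro a
      have h2 : algebraMap (𝓞 (FF D)) (𝓞 L) (algebraMap (𝓞 k) (𝓞 (FF D)) a) =
        algebraMap (𝓞 k) (𝓞 L) a := rfl
      rw [← h2, hΦ, h2, hE, extH_spec, ← hT]
      rfl)
    have h3 : ∀ x : 𝓞 (FF D), E (g • algebraMap _ _ x) = io p (T x) := by
      intro x
      rw [← hg, hΦ]
      rfl
    refine ⟨⟨g, (hcond g).2 fun x => by rw [h3, io_pow]⟩, ?_⟩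
    apply Subtype.ext
    ext x
    apply io_inj p
    rw [hΘ, h3]
  choose s hs using hsurj
  have hfib : ∀ (T : H53SCD.Over (FF D) p ψ) (d : D), (((s T).1 * d : L ≃ₐ[k] L))⁻¹ * σ * ((s T).1 * d) ∈ D := by
    intro T d
    have h1 : (((s T).1 * d : L ≃ₐ[k] L))⁻¹ * σ * ((s T).1 * d) = (d : L ≃ₐ[k] L)⁻¹ * ((s T).1⁻¹ * σ * (s T).1) * d := by
      group
    rw [h1]
    exact D.mul_mem (D.mul_mem (D.inv_mem d.2) (s T).2) d.2
  unfold pi
  rw [← Nat.cast_mul, ← Nat.card_prod]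
  congr 1
  symm
  refine Nat.card_congr (Equiv.ofBijective (fun x : H53SCD.Over (FF D) p ψ × D =>
    (⟨(s x.1).1 * x.2, hfib x.1 x.2⟩ : {g : L ≃ₐ[k] L // g⁻¹ * σ * g ∈ D})) ⟨?_, ?_⟩)
  · rintro ⟨T, d⟩ ⟨T', d'⟩ h
    have h1 : (s T).1 * d = (s T').1 * d' := congrArg Subtype.val h
    have h2 : T = T' := by
      apply Subtype.ext
      ext x
      apply io_inj p
      rw [← hs T, ← hs T', hΘ, hΘ]
      have h3 : (s T).1 = (s T').1 * (d' * d⁻¹ : D) := by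
        push_cast
        rw [← mul_assoc, ← h1]
        group
      rw [h3, mul_smul, smul_FF D (d' * d⁻¹ : D).2]
    subst h2
    have h4 : d = d' := Subtype.ext (mul_left_cancel h1)
    rw [h4]
  · rintro ⟨g, hg⟩
    have h1 := hs (Θ ⟨g, hg⟩)
    obtain ⟨d, hd, hd'⟩ := hag g (s (Θ ⟨g, hg⟩)).1 (fun x => by
      rw [← hΘ, h1, hΘ])
    exact ⟨(Θ ⟨g, hg⟩, ⟨d, hd⟩), Subtype.ext hd'.symm⟩

end frob

end

end Pool.Agent.Helper79.M
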