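import Pool.Agent.Helper13.M.Defs
import Pool.Agent.Helper79.M.Fr
import Pool.Agent.Helper21.HG.Mert

/-!
# The Frobenius density theorem with bounded error (project M, block W3)
-/

set_option autoImplicit false

open NumberField Filter Topology IsDedekindDomain Polynomial
open scoped Pointwise

namespace Pool.Agent.Helper79.M

open Pool.Agent.HG Pool.Agent.H53SCD Pool.Agent.Helper21.HG Pool.Agent.Helper70.Art

noncomputable section

local instance instFactPrimes (p : Nat.Primes) : Fact (p : ℕ).Prime := ⟨p.2⟩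

/-- Mertens for the primes of prime norm. -/
theorem cnt_mert (F : Type) [Field F] [NumberField F] : ∃ C : ℝ, ∀ x : ℕ, 2 ≤ x →
    |∑ p ∈ PX x, (cnt F p : ℝ) / (p : ℕ) - Real.log (Real.log x)| ≤ C := by
  obtain ⟨C, hC⟩ := cntp_log F
  obtain ⟨C', h⟩ := transfer (fun p => (cnt F p : ℝ)) (K := Module.finrank ℚ F) (Nat.cast_nonneg _)
    (fun p => by
      rw [abs_of_nonneg (Nat.cast_nonneg _)]
      exact_mod_cast cnt_le (k := F) (p : ℕ)) (δ := 1) (C := C) (by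
      simp only [one_mul]
      exact hC)
  refine ⟨C', fun x hx => ?_⟩
  have := h x hx
  rwa [one_mul] at this

/-- Finitely many prime numbers do not matter. -/
theorem sum_cong (a b : Nat.Primes → ℝ) {N : ℕ} (hN : N ≠ 0)
    (h : ∀ p : Nat.Primes, ¬ (p : ℕ) ∣ N → a p = b p) : ∃ C : ℝ, ∀ x : ℕ,
    |∑ p ∈ PX x, a p / (p : ℕ) - ∑ p ∈ PX x, b p / (p : ℕ)| ≤ C := by
  classical
  set D : Finset Nat.Primes := N.divisors.subtype Nat.Prime with hD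
  have hmD : ∀ p : Nat.Primes, p ∈ D ↔ (p : ℕ) ∣ N := fun p =>
    (Finset.mem_subtype.trans Nat.mem_divisors).trans ⟨fun h => h.1, fun h => ⟨h, hN⟩⟩
  refine ⟨∑ p ∈ D, |a p - b p|, fun x => ?_⟩
  rw [← Finset.sum_sub_distrib]
  refine (Finset.abs_sum_le_sum_abs _ _).trans ?_
  have h4 : ∀ p ∈ PX x, |a p / (p : ℕ) - b p / (p : ℕ)| ≤ if p ∈ D then |a p - b p| else 0 := by
    intro p _
    split_ifs with hp
    · rw [← sub_div, abs_div]
      have h5 : (1 : ℝ) ≤ |((p : ℕ) : ℝ)| := by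
        rw [abs_of_nonneg (Nat.cast_nonneg _)]
        exact_mod_cast p.2.one_le
      exact div_le_self (abs_nonneg _) h5
    · rw [hmD] at hp
      rw [h p hp, sub_self, abs_zero]
  refine (Finset.sum_le_sum h4).trans ?_
  rw [← Finset.sum_filter]
  exact Finset.sum_le_sum_of_subset_of_nonneg
    (fun p hp => (Finset.mem_filter.1 hp).2) fun _ _ _ => abs_nonneg _

/-- The primes which are not of prime norm do not matter. -/
theorem tail_le (k : Type) [Field k] [NumberField k] : ∃ K : ℝ, ∀ (s : Finset (Pr k)) (x : ℕ),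
    (∀ v ∈ s, nm v ≤ x) → (∀ v ∈ s, ¬ (nm v).Prime) → ∑ v ∈ s, (1 : ℝ) / nm v ≤ K := by
  have hs2 := summable_rpow_primes (show (1 : ℝ) < 2 by norm_num)
  refine ⟨Module.finrank ℚ k * ∑' p : Nat.Primes, (p : ℝ) ^ (-2 : ℝ), fun s x hx hs => ?_⟩
  have h6 := sum_le s x hx
    (fun v => (1 : ℝ) / nm v) (fun p => ((p : ℕ) : ℝ) ^ (-2 : ℝ)) (fun p => by positivity) (by
      intro v hv
      have h7 : ¬ (nm v).Prime := hs v hv
      obtain ⟨f, hf, h8⟩ := nm_eq_pow v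
      have h9 : 2 ≤ f := by
        by_contra h
        have : f = 1 := by omega
        rw [this, pow_one] at h8
        exact h7 (h8 ▸ (pb v).2)
      have h10 : (pb v : ℕ) ^ 2 ≤ nm v := by
        rw [h8]
        exact Nat.pow_le_pow_right (pb v).2.pos h9
      have h11 : (((pb v : ℕ) : ℝ)) ^ 2 ≤ (nm v : ℝ) := by exact_mod_cast h10
      have h12 : (0 : ℝ) < ((pb v : ℕ) : ℝ) := by exact_mod_cast (pb v).2.pos
      have h13 : (((pb v : ℕ) : ℝ)) ^ (-2 : ℝ) = 1 / ((pb v : ℕ) : ℝ) ^ 2 := by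
        rw [Real.rpow_neg h12.le, one_div]
        norm_num
      rw [h13]
      exact one_div_le_one_div_of_le (by positivity) h11)
  refine h6.trans ?_
  refine mul_le_mul_of_nonneg_left ?_ (Nat.cast_nonneg _)
  exact hs2.sum_le_tsum _ fun p _ => by positivity

variable {k L : Type} [Field k] [NumberField k] [Field L] [NumberField L] [Algebra k L]

section V

variable (fr : ∀ p : Nat.Primes, (𝓞 k →+* ZMod p) → (L ≃ₐ[k] L))

/-- the sum over the homomorphisms -/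
def AA (f : (L ≃ₐ[k] L) → ℝ) (p : Nat.Primes) : ℝ := ∑ ψ : 𝓞 k →+* ZMod p, f (fr p ψ)

/-- the mean value -/
def av (f : (L ≃ₐ[k] L) → ℝ) : ℝ := (∑ᶠ g, f g) / Nat.card (L ≃ₐ[k] L)

theorem av_add (f g : (L ≃ₐ[k] L) → ℝ) : av (f + g) = av f + av g := by
  have := Fintype.ofFinite (L ≃ₐ[k] L)
  unfold av
  rw [finsum_eq_sum_of_fintype, finsum_eq_sum_of_fintype, finsum_eq_sum_of_fintype, ← add_div,
    ← Finset.sum_add_distrib]
  rfl

theorem av_smul (c : ℝ) (f : (L ≃ₐ[k] L) → ℝ) : av (c • f) = c * av f := by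
  have := Fintype.ofFinite (L ≃ₐ[k] L)
  unfold av
  rw [finsum_eq_sum_of_fintype, finsum_eq_sum_of_fintype, ← mul_div_assoc, Finset.mul_sum]
  rfl

theorem av_pi (D : Subgroup (L ≃ₐ[k] L)) : av (pi D) = Nat.card D := by
  have := Fintype.ofFinite (L ≃ₐ[k] L)
  have hG : (Nat.card (L ≃ₐ[k] L) : ℝ) ≠ 0 := by exact_mod_cast Nat.card_pos.ne'
  unfold av
  rw [finsum_eq_sum_of_fintype, pi_sum, mul_div_cancel_left₀ _ hG]

theorem av_indicator (C : Set (L ≃ₐ[k] L)) [DecidablePred (· ∈ C)] :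
    av (fun g => if g ∈ C then (1 : ℝ) else 0) = (Nat.card C : ℝ) / Nat.card (L ≃ₐ[k] L) := by
  have := Fintype.ofFinite (L ≃ₐ[k] L)
  unfold av
  rw [finsum_eq_sum_of_fintype, Finset.sum_boole, Nat.card_eq_fintype_card (α := C),
    Fintype.card_subtype]

/-- The functions with a mean value. -/
def VV : Submodule ℝ ((L ≃ₐ[k] L) → ℝ) where
  carrier := {f | ∃ C : ℝ, ∀ x : ℕ, 2 ≤ x →
    |∑ p ∈ PX x, AA fr f p / (p : ℕ) - av f * Real.log (Real.log x)| ≤ C}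
  zero_mem' := by
    refine ⟨0, fun x _ => ?_⟩
    have h1 : av (0 : (L ≃ₐ[k] L) → ℝ) = 0 := by
      have := av_smul (k := k) (L := L) 0 0
      rwa [zero_smul, zero_mul] at this
    have h2 : ∀ p ∈ PX x, AA fr (0 : (L ≃ₐ[k] L) → ℝ) p / (p : ℕ) = 0 := by
      intro p _
      unfold AA
      simp
    rw [h1, Finset.sum_congr rfl h2]
    simp
  add_mem' := by
    rintro f g ⟨C, hC⟩ ⟨C', hC'⟩
    refine ⟨C + C', fun x hx => ?_⟩
    have h1 := hC x hx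
    have h2 := hC' x hx
    have h3 : ∑ p ∈ PX x, AA fr (f + g) p / (p : ℕ) =
        ∑ p ∈ PX x, AA fr f p / (p : ℕ) + ∑ p ∈ PX x, AA fr g p / (p : ℕ) := by
      rw [← Finset.sum_add_distrib]
      refine Finset.sum_congr rfl fun p _ => ?_
      rw [← add_div]
      congr 1
      unfold AA
      rw [← Finset.sum_add_distrib]
      rfl
    rw [h3, av_add]
    rw [abs_le] at h1 h2 ⊢
    constructor <;> linarith [h1.1, h1.2, h2.1, h2.2]
  smul_mem' := by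
    rintro c f ⟨C, hC⟩
    refine ⟨|c| * C, fun x hx => ?_⟩
    have h1 := hC x hx
    have h3 : ∑ p ∈ PX x, AA fr (c • f) p / (p : ℕ) = c * ∑ p ∈ PX x, AA fr f p / (p : ℕ) := by
      rw [Finset.mul_sum]
      refine Finset.sum_congr rfl fun p _ => ?_
      rw [← mul_div_assoc]
      congr 1
      unfold AA
      rw [Finset.mul_sum]
      rfl
    rw [h3, av_smul]
    have h4 : c * ∑ p ∈ PX x, AA fr f p / (p : ℕ) - c * av f * Real.log (Real.log x) =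
      c * (∑ p ∈ PX x, AA fr f p / (p : ℕ) - av f * Real.log (Real.log x)) := by ring
    rw [h4, abs_mul]
    exact mul_le_mul_of_nonneg_left h1 (abs_nonneg _)

theorem pi_mem [IsGalois k L] {N : ℕ} (hN0 : N ≠ 0) (hN : Cst k L N)
    (hfr : ∀ (p : Nat.Primes) (ψ : 𝓞 k →+* ZMod p), ¬ (p : ℕ) ∣ N →
      ∀ z, extH L (p : ℕ) ψ z ^ (p : ℕ) = extH L (p : ℕ) ψ (fr p ψ • z))
    (D : Subgroup (L ≃ₐ[k] L)) (hND : Cst (FF D) L N) : pi D ∈ VV fr := by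
  obtain ⟨C₁, h1⟩ := cnt_mert (FF D)
  obtain ⟨C₂, h2⟩ := sum_cong (AA fr (pi D)) (fun p => (cnt (FF D) p : ℝ) * Nat.card D) hN0 (by
    intro p hp
    unfold AA
    rw [card_homs_eq (k := k) (FF D) (p : ℕ), Nat.cast_sum, Finset.sum_mul]
    exact Finset.sum_congr rfl fun ψ _ => count_over (p : ℕ) D hN hND hp ψ (fr p ψ) (hfr p ψ hp))
  refine ⟨C₂ + Nat.card D * C₁, fun x hx => ?_⟩
  have h3 := h1 x hx
  have h4 := h2 x
  rw [av_pi]
  have h5 : ∑ p ∈ PX x, (cnt (FF D) p : ℝ) * Nat.card D / (p : ℕ) =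
      Nat.card D * ∑ p ∈ PX x, (cnt (FF D) p : ℝ) / (p : ℕ) := by
    rw [Finset.mul_sum]
    exact Finset.sum_congr rfl fun p _ => by ring
  rw [h5] at h4
  have h6 : ∑ p ∈ PX x, AA fr (pi D) p / (p : ℕ) - Nat.card D * Real.log (Real.log x) =
      (∑ p ∈ PX x, AA fr (pi D) p / (p : ℕ) -
        Nat.card D * ∑ p ∈ PX x, (cnt (FF D) p : ℝ) / (p : ℕ)) +
      Nat.card D * (∑ p ∈ PX x, (cnt (FF D) p : ℝ) / (p : ℕ) - Real.log (Real.log x)) := by ring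
  rw [h6]
  refine (abs_add_le _ _).trans (add_le_add h4 ?_)
  rw [abs_mul, abs_of_nonneg (Nat.cast_nonneg _)]
  exact mul_le_mul_of_nonneg_left h3 (Nat.cast_nonneg _)

end V

/-! ## Frobenius elements at primes -/

/-- the Frobenius condition -/
def IsF (v : Pr k) (P : Pr L) (σ : L ≃ₐ[k] L) : Prop :=
  P.asIdeal.comap (algebraMap (𝓞 k) (𝓞 L)) = v.asIdeal ∧
    ∀ z : L, P.valuation L z ≤ 1 → P.valuation L (σ z - z ^ nm v) < 1

theorem IsF.int {v : Pr k} {P : Pr L} {σ : L ≃ₐ[k] L} (h : IsF v P σ) (a : 𝓞 L) :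
    σ • a - a ^ nm v ∈ P.asIdeal := by
  rw [← val_int_lt]
  have := h.2 (a : L) (val_int _ _)
  have h1 : ((σ • a - a ^ nm v : 𝓞 L) : L) = σ (a : L) - (a : L) ^ nm v := by
    push_cast
    rfl
  rw [h1]
  exact this

theorem exists_hom_prime (P : Pr L) (p : ℕ) [hp : Fact p.Prime] (hpP : (p : 𝓞 L) ∈ P.asIdeal) :
    ∃ Φ : 𝓞 L →+* Fb p, ∀ z, Φ z = 0 ↔ z ∈ P.asIdeal := by
  have hm : P.asIdeal.IsMaximal := P.isMaximal
  let : Field (𝓞 L ⧸ P.asIdeal) := Ideal.Quotient.field _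
  have hfin : Finite (𝓞 L ⧸ P.asIdeal) := Ideal.finiteQuotientOfFreeOfNeBot _ P.ne_bot
  have hch : CharP (𝓞 L ⧸ P.asIdeal) p := by
    have h1 : ((p : ℕ) : 𝓞 L ⧸ P.asIdeal) = 0 := by
      have := Ideal.Quotient.eq_zero_iff_mem.2 hpP
      rwa [map_natCast] at this
    exact (CharP.charP_iff_prime_eq_zero hp.out).2 h1
  let : Algebra (ZMod p) (𝓞 L ⧸ P.asIdeal) := ZMod.algebra _ p
  have : Algebra.IsAlgebraic (ZMod p) (𝓞 L ⧸ P.asIdeal) := by
    have : Module.Finite (ZMod p) (𝓞 L ⧸ P.asIdeal) := Module.Finite.of_finite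
    infer_instance
  let Φ : (𝓞 L ⧸ P.asIdeal) →ₐ[ZMod p] Fb p := IsAlgClosed.lift
  refine ⟨(Φ : (𝓞 L ⧸ P.asIdeal) →+* Fb p).comp (Ideal.Quotient.mk P.asIdeal), fun z => ?_⟩
  change Φ (Ideal.Quotient.mk P.asIdeal z) = 0 ↔ _
  rw [map_eq_zero_iff Φ Φ.injective, Ideal.Quotient.eq_zero_iff_mem]

theorem IsF.conj [IsGalois k L] {N : ℕ} (hN : Cst k L N) {v : Pr k} {P P' : Pr L}
    {σ σ' : L ≃ₐ[k] L} (h : IsF v P σ) (h' : IsF v P' σ') (p : ℕ) [hp : Fact p.Prime]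
    (hpN : ¬ p ∣ N) (hpv : (p : 𝓞 k) ∈ v.asIdeal) : ∃ g : L ≃ₐ[k] L, σ' = g * σ * g⁻¹ := by
  obtain ⟨g, hg⟩ := exists_conj' h.1 h'.1
  have hpP : (p : 𝓞 L) ∈ P'.asIdeal := by
    rw [← h'.1, Ideal.mem_comap, map_natCast] at hpv
    exact hpv
  obtain ⟨Φ, hΦ⟩ := exists_hom_prime P' p hpP
  refine ⟨g, ?_⟩
  have h1 : ∀ w : 𝓞 L, Φ (σ' • w) = Φ ((g * σ * g⁻¹) • w) := by
    intro w
    have h2 := h'.int w
    have h3 := (hg _).1 (h.int (g⁻¹ • w))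
    rw [smul_sub, smul_pow', smul_inv_smul] at h3
    have h4 := sub_mem h2 h3
    rw [sub_sub_sub_cancel_right, ← hΦ, map_sub, sub_eq_zero] at h4
    rw [h4, mul_smul, mul_smul]
  have h2 := hN.unr p hpN Φ (σ' * (g * σ * g⁻¹)⁻¹) (fun z => by
    rw [mul_smul, h1, smul_inv_smul])
  rwa [mul_inv_eq_one] at h2

theorem fr_conj {N : ℕ} (hN : Cst k L N) (p : ℕ) [hp : Fact p.Prime] (hpN : ¬ p ∣ N)
    (ψ : 𝓞 k →+* ZMod p) {τ : L ≃ₐ[k] L} (hτ : ∀ z, extH L p ψ z ^ p = extH L p ψ (τ • z))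
    {P : Pr L} {σ : L ≃ₐ[k] L} (h : IsF (homEquiv p ψ).1 P σ) :
    ∃ g : L ≃ₐ[k] L, τ = g * σ * g⁻¹ := by
  have hnm : nm (homEquiv p ψ).1 = p := (homEquiv p ψ).2
  have hpP : (p : 𝓞 L) ∈ P.asIdeal := by
    have h1 : (p : 𝓞 k) ∈ (homEquiv p ψ).1.asIdeal := by
      rw [homEquiv_ideal, RingHom.mem_ker, map_natCast, ZMod.natCast_self]
    rw [← h.1, Ideal.mem_comap, map_natCast] at h1
    exact h1
  obtain ⟨Φ, hΦ⟩ := exists_hom_prime P p hpP
  set E := extH L p ψ with hE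
  have hch : CharP (Fb p) p := charP_of_injective_algebraMap (io_inj p) p
  have h1 : ∀ a, Φ (algebraMap (𝓞 k) (𝓞 L) a) = E (algebraMap (𝓞 k) (𝓞 L) a) := by
    intro a
    rw [hE, extH_spec]
    have h2 : ψ (a - ((ψ a).val : 𝓞 k)) = 0 := by
      rw [map_sub, map_natCast, ZMod.natCast_val, ZMod.cast_id', id, sub_self]
    have h3 : a - ((ψ a).val : 𝓞 k) ∈ (homEquiv p ψ).1.asIdeal := h2
    rw [← h.1, Ideal.mem_comap, ← hΦ, map_sub, map_sub, map_natCast, map_natCast, sub_eq_zero] at h3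
    rw [h3]
    conv_rhs => rw [← ZMod.natCast_zmod_val (ψ a), map_natCast]
  obtain ⟨g, hg⟩ := hN.conj p hpN Φ E h1
  refine ⟨g, ?_⟩
  have h4 : ∀ z, E ((g * σ) • z) = E ((τ * g) • z) := by
    intro z
    rw [mul_smul, mul_smul, ← hτ, ← hg, ← hg, ← map_pow, ← sub_eq_zero, ← map_sub, hΦ]
    have := h.int z
    rwa [hnm] at this
  have h5 := hN.unr p hpN E ((g * σ) * (τ * g)⁻¹) (fun z => by rw [mul_smul, h4, smul_inv_smul])
  rw [mul_inv_eq_one] at h5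
  rw [h5]
  group

end

end Pool.Agent.Helper79.M

namespace Pool.Agent.M

open Pool.Agent.HG Pool.Agent.H53SCD Pool.Agent.Helper21.HG Pool.Agent.Helper70.Art
open Pool.Agent.Helper79.M

noncomputable section

local instance instFactPrimes' (p : Nat.Primes) : Fact (p : ℕ).Prime := ⟨p.2⟩

/-- **BLOCK W3.** -/
theorem w3 : StmtW3 := by
  classical
  intro k L _ _ _ _ _ _ C hC1 hC2 B hB
  -- the constant
  obtain ⟨N₀, hN₀0, hN₀⟩ := exists_cst k L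
  choose ND hND0 hND using fun D : Subgroup (L ≃ₐ[k] L) => exists_cst (FF D) L
  have hfinD : Finite (Subgroup (L ≃ₐ[k] L)) := inferInstance
  have := Fintype.ofFinite (Subgroup (L ≃ₐ[k] L))
  set N : ℕ := N₀ * ∏ D, ND D with hNdef
  have hN0 : N ≠ 0 := mul_ne_zero hN₀0 (Finset.prod_ne_zero_iff.2 fun D _ => hND0 D)
  have hN : Cst k L N := hN₀.dvd (Dvd.intro _ rfl)
  have hNF : ∀ D, Cst (FF D) L N := fun D =>
    (hND D).dvd ((Finset.dvd_prod_of_mem _ (Finset.mem_univ D)).mul_left _)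
  -- the Frobenius elements
  have hex : ∀ (p : Nat.Primes) (ψ : 𝓞 k →+* ZMod p), ∃ σ : L ≃ₐ[k] L, ¬ (p : ℕ) ∣ N →
      ∀ z, extH L (p : ℕ) ψ z ^ (p : ℕ) = extH L (p : ℕ) ψ (σ • z) := by
    intro p ψ
    by_cases hp : (p : ℕ) ∣ N
    · exact ⟨1, fun h => absurd hp h⟩
    · obtain ⟨σ, hσ⟩ := exists_fr (p : ℕ) hN hp ψ
      exact ⟨σ, fun _ => hσ⟩
  choose fr hfr using hex
  -- the indicator function
  have hC1' : ∀ σ τ : L ≃ₐ[k] L, Subgroup.zpowers τ = Subgroup.zpowers σ → (τ ∈ C ↔ σ ∈ C) :=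
    fun σ τ h => ⟨fun h' => hC1 τ h' σ h.symm, fun h' => hC1 σ h' τ h⟩
  have hC2' : ∀ σ g : L ≃ₐ[k] L, g * σ * g⁻¹ ∈ C ↔ σ ∈ C := by
    intro σ g
    refine ⟨fun h => ?_, fun h => hC2 σ h g⟩
    have := hC2 _ h g⁻¹
    have h2 : g⁻¹ * (g * σ * g⁻¹) * g⁻¹⁻¹ = σ := by group
    rwa [h2] at this
  have hmem := mem_of_class (VV fr) (fun σ => pi_mem fr hN0 hN hfr _ (hNF _))
    (fun g => if g ∈ C then (1 : ℝ) else 0) (fun σ τ h => by simp only [hC1' σ τ h])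
    (fun σ g => by simp only [hC2' σ g])
  obtain ⟨C₁, h1⟩ := hmem
  rw [av_indicator] at h1
  -- the set
  obtain ⟨Q, hQ⟩ : ∃ Q : Set (Pr k), ∀ v, v ∈ Q ↔ ∃ (P : Pr L) (σ : L ≃ₐ[k] L),
    IsF v P σ ∧ σ ∈ C := ⟨{v | ∃ (P : Pr L) (σ : L ≃ₐ[k] L), IsF v P σ ∧ σ ∈ C}, fun _ => Iff.rfl⟩
  obtain ⟨Q', hQ'⟩ : ∃ Q' : Set (Pr k), ∀ v, v ∈ Q' ↔ v ∈ Q ∧ (nm v).Prime :=
    ⟨{v | v ∈ Q ∧ (nm v).Prime}, fun _ => Iff.rfl⟩
  have hQfr : ∀ (p : Nat.Primes) (ψ : 𝓞 k →+* ZMod p), ¬ (p : ℕ) ∣ N →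
      ((homEquiv (p : ℕ) ψ).1 ∈ Q ↔ fr p ψ ∈ C) := by
    intro p ψ hp
    rw [hQ]
    constructor
    · rintro ⟨P, σ, hF, hσ⟩
      obtain ⟨g, hg⟩ := fr_conj hN (p : ℕ) hp ψ (hfr p ψ hp) hF
      rw [hg]
      exact hC2 σ hσ g
    · intro h
      obtain ⟨P, hP⟩ := HG.exists_over (L := L) (homEquiv (p : ℕ) ψ).1
      obtain ⟨σ, -, hσ⟩ := exists_frob hP
      obtain ⟨g, hg⟩ := fr_conj hN (p : ℕ) hp ψ (hfr p ψ hp) ⟨hP, hσ⟩
      refine ⟨P, σ, ⟨hP, hσ⟩, ?_⟩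
      rw [hg] at h
      exact (hC2' σ g).1 h
  obtain ⟨C₂, h2⟩ := sum_cong
    (fun p => (Nat.card {v : Pr k // v ∈ Q' ∧ nm v = (p : ℕ)} : ℝ))
    (AA fr (fun g => if g ∈ C then (1 : ℝ) else 0)) hN0 (by
      intro p hp
      unfold AA
      rw [Finset.sum_boole]
      congr 1
      rw [← Fintype.card_subtype, ← Nat.card_eq_fintype_card]
      symm
      refine Nat.card_congr (Equiv.ofBijective
        (fun ψ : {ψ : 𝓞 k →+* ZMod p // fr p ψ ∈ C} =>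
          (⟨(homEquiv (p : ℕ) ψ.1).1, (hQ' _).2 ⟨(hQfr p ψ.1 hp).2 ψ.2, by
            rw [(homEquiv (p : ℕ) ψ.1).2]; exact p.2⟩, (homEquiv (p : ℕ) ψ.1).2⟩ :
            {v : Pr k // v ∈ Q' ∧ nm v = p})) ⟨?_, ?_⟩)
      · intro ψ ψ' h
        have h1 : (homEquiv (p : ℕ) ψ.1).1 = (homEquiv (p : ℕ) ψ'.1).1 :=
          congrArg (fun z : {v : Pr k // v ∈ Q' ∧ nm v = p} => z.1) h
        exact Subtype.ext ((homEquiv (p : ℕ)).injective (Subtype.ext h1))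
      · rintro ⟨v, hv', hvp⟩
        have hv := ((hQ' v).1 hv').1
        obtain ⟨ψ, hψ⟩ := (homEquiv (k := k) (p : ℕ)).surjective ⟨v, hvp⟩
        have h1 : (homEquiv (p : ℕ) ψ).1 = v := congrArg Subtype.val hψ
        refine ⟨⟨ψ, (hQfr p ψ hp).1 (h1 ▸ hv)⟩, ?_⟩
        exact Subtype.ext h1)
  obtain ⟨K, hK⟩ := Helper79.M.tail_le k
  refine ⟨C₁ + C₂ + K, {v | (N : 𝓞 k) ∈ v.asIdeal}, Q, ?_, ?_, ?_⟩
  · have h3 : Ideal.span {(N : 𝓞 k)} ≠ 0 := by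
      rw [Ne, Ideal.zero_eq_bot, Ideal.span_singleton_eq_bot]
      exact_mod_cast hN0
    exact (Ideal.finite_factors h3).subset fun v hv => Ideal.dvd_span_singleton.2 hv
  · intro v hv P σ hP hσ
    rw [hQ]
    constructor
    · rintro ⟨P', σ', hF, hσ'⟩
      obtain ⟨p, hp, hpv⟩ := exists_prime v
      have := Fact.mk hp
      have hpN : ¬ p ∣ N := by
        rintro ⟨m, hm⟩
        apply hv
        change (N : 𝓞 k) ∈ v.asIdeal
        rw [hm, Nat.cast_mul]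
        exact Ideal.mul_mem_right _ _ hpv
      obtain ⟨g, hg⟩ := IsF.conj hN hF ⟨hP, hσ⟩ p hpN hpv
      rw [hg]
      exact hC2 σ' hσ' g
    · intro h
      exact ⟨P, σ, ⟨hP, hσ⟩, h⟩
  · intro x hx
    have h3 := h1 x hx
    have h4 := h2 x
    have h5 := fib B hB Q' (fun v hv => ((hQ' v).1 hv).2) x
    rw [← h5] at h4
    have h6 : ∑ v ∈ (B x).filter (· ∈ Q), (1 : ℝ) / nm v =
        ∑ v ∈ (B x).filter (· ∈ Q'), (1 : ℝ) / nm v +
        ∑ v ∈ ((B x).filter (· ∈ Q)).filter (fun v => ¬ (nm v).Prime), (1 : ℝ) / nm v := by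
      rw [← Finset.sum_filter_add_sum_filter_not ((B x).filter (· ∈ Q)) (fun v => (nm v).Prime)]
      congr 1
      rw [Finset.filter_filter]
      refine Finset.sum_congr (Finset.filter_congr fun v _ => ?_) fun _ _ => rfl
      exact (hQ' v).symm
    have h7 := hK (((B x).filter (· ∈ Q)).filter (fun v => ¬ (nm v).Prime)) x
      (fun v hv => (hB x v).1 (Finset.mem_filter.1 (Finset.mem_filter.1 hv).1).1)
      (fun v hv => (Finset.mem_filter.1 hv).2)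
    have h8 : 0 ≤ ∑ v ∈ ((B x).filter (· ∈ Q)).filter (fun v => ¬ (nm v).Prime), (1 : ℝ) / nm v :=
      Finset.sum_nonneg fun v _ => by positivity
    rw [h6]
    rw [abs_le] at h3 h4 ⊢
    constructor <;> linarith [h3.1, h3.2, h4.1, h4.2]

end

end Pool.Agent.M
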