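import Mathlib

/-!
# Class functions of a finite group which only depend on the cyclic subgroup (project M, block W3)
-/

set_option autoImplicit false

namespace Pool.Agent.Helper79.M

noncomputable section

variable {G : Type*} [Group G] [Finite G]

/-- the number of `g` with `g⁻¹ τ g ∈ D` -/
def pi (D : Subgroup G) (τ : G) : ℝ := (Nat.card {g : G // g⁻¹ * τ * g ∈ D} : ℝ)

theorem pi_pos {D : Subgroup G} {τ : G} (h : τ ∈ D) : 0 < pi D τ := by
  have : Nonempty {g : G // g⁻¹ * τ * g ∈ D} := ⟨⟨1, by simpa using h⟩⟩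
  unfold pi
  exact_mod_cast Nat.card_pos

omit [Finite G] in
theorem pi_nonneg (D : Subgroup G) (τ : G) : 0 ≤ pi D τ := Nat.cast_nonneg _

omit [Finite G] in
theorem pi_ne {D : Subgroup G} {τ : G} (h : pi D τ ≠ 0) : ∃ g : G, g⁻¹ * τ * g ∈ D := by
  by_contra hne
  push Not at hne
  apply h
  have : IsEmpty {g : G // g⁻¹ * τ * g ∈ D} := ⟨fun g => hne g.1 g.2⟩
  unfold pi
  rw [Nat.card_of_isEmpty, Nat.cast_zero]

omit [Finite G] in
theorem conj_zpow' (g τ : G) (m : ℤ) : g⁻¹ * τ ^ m * g = (g⁻¹ * τ * g) ^ m := by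
  have := (conj_zpow (i := m) (a := g⁻¹) (b := τ)).symm
  rwa [inv_inv] at this

omit [Finite G] in
theorem pi_zp (D : Subgroup G) {σ τ : G} (h : Subgroup.zpowers τ = Subgroup.zpowers σ) :
    pi D τ = pi D σ := by
  have key : ∀ {σ τ : G}, Subgroup.zpowers τ = Subgroup.zpowers σ → ∀ g : G,
      g⁻¹ * τ * g ∈ D → g⁻¹ * σ * g ∈ D := by
    intro σ τ h g hg
    have h1 : σ ∈ Subgroup.zpowers τ := by rw [h]; exact Subgroup.mem_zpowers σ
    obtain ⟨m, hm⟩ := Subgroup.mem_zpowers_iff.1 h1
    rw [← hm, conj_zpow']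
    exact D.zpow_mem hg m
  unfold pi
  congr 1
  exact Nat.card_congr (Equiv.subtypeEquivRight fun g => ⟨key h g, key h.symm g⟩)

omit [Finite G] in
theorem pi_conj (D : Subgroup G) (σ h : G) : pi D (h * σ * h⁻¹) = pi D σ := by
  unfold pi
  congr 1
  refine Nat.card_congr ((Equiv.mulLeft h⁻¹).subtypeEquiv fun g => ?_)
  have : (h⁻¹ * g)⁻¹ * σ * (h⁻¹ * g) = g⁻¹ * (h * σ * h⁻¹) * g := by group
  change _ ↔ (h⁻¹ * g)⁻¹ * σ * (h⁻¹ * g) ∈ D
  rw [this]

theorem pi_sum (D : Subgroup G) [Fintype G] : ∑ τ : G, pi D τ = Nat.card G * Nat.card D := by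
  have h1 : ∀ τ : G, pi D τ = ((Nat.card {g : G // g⁻¹ * τ * g ∈ D} : ℕ) : ℝ) := fun τ => rfl
  rw [Finset.sum_congr rfl fun τ _ => h1 τ, ← Nat.cast_sum, ← Nat.card_sigma, ← Nat.cast_mul,
    ← Nat.card_prod]
  congr 1
  refine Nat.card_congr (Equiv.ofBijective (fun x : (Σ τ : G, {g : G // g⁻¹ * τ * g ∈ D}) =>
    ((x.2.1, ⟨_, x.2.2⟩) : G × D)) ⟨?_, ?_⟩)
  · rintro ⟨τ, g, hg⟩ ⟨τ', g', hg'⟩ h
    have h2 : g = g' := congrArg Prod.fst h
    have h3 : g⁻¹ * τ * g = g'⁻¹ * τ' * g' := congrArg (fun z : G × D => (z.2 : G)) h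
    subst h2
    have h4 : τ = τ' := mul_left_cancel (mul_right_cancel h3)
    subst h4
    rfl
  · rintro ⟨g, d, hd⟩
    have h2 : g⁻¹ * (g * d * g⁻¹) * g = d := by group
    refine ⟨⟨g * d * g⁻¹, g, by rw [h2]; exact hd⟩, ?_⟩
    exact Prod.ext rfl (Subtype.ext h2)

omit [Finite G] in
theorem orderOf_conj' (g τ : G) : orderOf (g⁻¹ * τ * g) = orderOf τ := by
  have := (MulAut.conj g⁻¹).orderOf_eq τ
  rwa [MulAut.conj_apply, inv_inv] at this

theorem mem_of_support (V : Submodule ℝ (G → ℝ))
    (hV : ∀ σ : G, pi (Subgroup.zpowers σ) ∈ V) (n : ℕ) :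
    ∀ f : G → ℝ, (∀ σ τ : G, Subgroup.zpowers τ = Subgroup.zpowers σ → f τ = f σ) →
      (∀ σ g : G, f (g * σ * g⁻¹) = f σ) → (∀ τ, n < orderOf τ → f τ = 0) → f ∈ V := by
  classical
  have := Fintype.ofFinite G
  induction n with
  | zero =>
    intro f _ _ h
    have : f = 0 := funext fun τ => h τ (orderOf_pos τ)
    rw [this]
    exact V.zero_mem
  | succ n ih =>
    intro f h1 h2 h3
    set w : G → ℝ := fun τ => ∑ σ : G, if orderOf σ = n + 1 then pi (Subgroup.zpowers σ) τ else 0
      with hw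
    have hw1 : ∀ σ τ : G, Subgroup.zpowers τ = Subgroup.zpowers σ → w τ = w σ := by
      intro σ τ h
      refine Finset.sum_congr rfl fun s _ => ?_
      rw [pi_zp _ h]
    have hw2 : ∀ σ g : G, w (g * σ * g⁻¹) = w σ := by
      intro σ g
      refine Finset.sum_congr rfl fun s _ => ?_
      rw [pi_conj]
    have hw3 : ∀ τ, orderOf τ = n + 1 → w τ ≠ 0 := by
      intro τ hτ
      have h4 : pi (Subgroup.zpowers τ) τ ≤ w τ := by
        have h5 := Finset.single_le_sum (s := Finset.univ)
          (f := fun σ : G => if orderOf σ = n + 1 then pi (Subgroup.zpowers σ) τ else 0)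
          (fun σ _ => by
            split_ifs
            · exact pi_nonneg _ _
            · exact le_rfl) (Finset.mem_univ τ)
        rwa [if_pos hτ] at h5
      have h5 := pi_pos (Subgroup.mem_zpowers τ)
      exact (lt_of_lt_of_le h5 h4).ne'
    set F : G → ℝ := fun τ => f τ / w τ with hF
    have hF1 : ∀ σ τ : G, Subgroup.zpowers τ = Subgroup.zpowers σ → F τ = F σ := by
      intro σ τ h
      simp only [hF]
      rw [h1 _ _ h, hw1 _ _ h]
    have hF2 : ∀ σ g : G, F (g * σ * g⁻¹) = F σ := by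
      intro σ g
      simp only [hF]
      rw [h2, hw2]
    set s : G → ℝ := ∑ σ : G, if orderOf σ = n + 1 then F σ • pi (Subgroup.zpowers σ) else 0 with hs
    have hsV : s ∈ V := by
      refine V.sum_mem fun σ _ => ?_
      split_ifs
      · exact V.smul_mem _ (hV σ)
      · exact V.zero_mem
    have hsa : ∀ τ, s τ = ∑ σ : G, if orderOf σ = n + 1 then F σ * pi (Subgroup.zpowers σ) τ else 0 := by
      intro τ
      rw [hs, Finset.sum_apply]
      refine Finset.sum_congr rfl fun σ _ => ?_
      split_ifs <;> rfl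
    have hdiff : f - s ∈ V := by
      apply ih
      · intro σ τ h
        rw [Pi.sub_apply, Pi.sub_apply, h1 _ _ h, hsa, hsa]
        congr 1
        refine Finset.sum_congr rfl fun x _ => ?_
        rw [pi_zp _ h]
      · intro σ g
        rw [Pi.sub_apply, Pi.sub_apply, h2, hsa, hsa]
        congr 1
        refine Finset.sum_congr rfl fun x _ => ?_
        rw [pi_conj]
      · intro τ hτ
        rw [Pi.sub_apply, hsa, sub_eq_zero]
        rcases Nat.lt_or_ge (n + 1) (orderOf τ) with h4 | h4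
        · rw [h3 τ h4]
          symm
          refine Finset.sum_eq_zero fun σ _ => ?_
          split_ifs with h5
          · by_contra h6
            obtain ⟨g, hg⟩ := pi_ne (right_ne_zero_of_mul h6)
            have h7 : orderOf (g⁻¹ * τ * g) ∣ orderOf σ := by
              rw [← Nat.card_zpowers σ, ← Subgroup.orderOf_mk _ hg]
              exact orderOf_dvd_natCard _
            rw [orderOf_conj', h5] at h7
            exact absurd (Nat.le_of_dvd (by omega) h7) (by omega)
          · rfl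
        · have h5 : orderOf τ = n + 1 := by omega
          have h6 : ∀ σ : G, (if orderOf σ = n + 1 then F σ * pi (Subgroup.zpowers σ) τ else 0) =
              F τ * (if orderOf σ = n + 1 then pi (Subgroup.zpowers σ) τ else 0) := by
            intro σ
            split_ifs with h7
            · by_cases h8 : pi (Subgroup.zpowers σ) τ = 0
              · rw [h8, mul_zero, mul_zero]
              · obtain ⟨g, hg⟩ := pi_ne h8
                have h9 : Subgroup.zpowers (g⁻¹ * τ * g) = Subgroup.zpowers σ := by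
                  apply Subgroup.eq_of_le_of_card_ge (Subgroup.zpowers_le.2 hg)
                  rw [Nat.card_zpowers, Nat.card_zpowers, orderOf_conj', h5, h7]
                have h10 : F σ = F τ := by
                  rw [← hF1 _ _ h9]
                  have := hF2 τ g⁻¹
                  rwa [inv_inv] at this
                rw [h10]
            · rw [mul_zero]
          rw [Finset.sum_congr rfl fun σ _ => h6 σ, ← Finset.mul_sum]
          change f τ = F τ * w τ
          rw [hF]
          exact (div_mul_cancel₀ _ (hw3 τ h5)).symm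
    have := V.add_mem hdiff hsV
    rwa [sub_add_cancel] at this

theorem mem_of_class (V : Submodule ℝ (G → ℝ))
    (hV : ∀ σ : G, pi (Subgroup.zpowers σ) ∈ V) (f : G → ℝ)
    (h1 : ∀ σ τ : G, Subgroup.zpowers τ = Subgroup.zpowers σ → f τ = f σ)
    (h2 : ∀ σ g : G, f (g * σ * g⁻¹) = f σ) : f ∈ V := by
  refine mem_of_support V hV (Nat.card G) f h1 h2 fun τ h => ?_
  have := Nat.le_of_dvd Nat.card_pos (orderOf_dvd_natCard τ)
  omega

end

end Pool.Agent.Helper79.M
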